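import Mathlib
import Pool.Agent.Q298.Hole.Det
import Pool.Agent.Q298.Hole.Prob
import Pool.Agent.Q298.Hole.Cap
import Pool.Agent.Q298.Hole.SFun

/-!
# MP_629fb1_pr: the hole probability of the Gaussian entire function is not given by capacity

For the rectangles `K_L = [-L, L] × [-1, 1]` the hole probability exponent of the Gaussian entire
function in `r K_L` is at most `600 L² r⁴` for large `r`, while the capacity of `K_L` is at least
`2 L / e²`.  So the conjectured formula `S(c(K) r) (1 + o(1)) ~ (e² / 4) c(K)⁴ r⁴` fails, by an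
arbitrarily large factor.
-/

namespace Pool.Agent.Results.MP_629fb1_pr.ElongatedHoles

open Q298.Hole

open MeasureTheory ProbabilityTheory Filter Complex Real

open scoped Nat Topology

/-- The Gaussian entire function `f(z) = ∑ ξ_n z^n / √(n!)`. -/
noncomputable def gef {Ω : Type*} (ξ : ℕ → Ω → ℂ) (ω : Ω) (z : ℂ) : ℂ :=
  ∑' n, ξ n ω * z ^ n / ((√(n ! : ℝ) : ℝ) : ℂ)

/-- The hole event: `f` has no zero in `r K`. -/
def holeEvent {Ω : Type*} (ξ : ℕ → Ω → ℂ) (K : Set ℂ) (r : ℝ) : Set Ω :=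
  {ω | ∀ z ∈ K, gef ξ ω ((r : ℂ) * z) ≠ 0}

/-- The hole probability exponent `-log P(f has no zero in r K)`. -/
noncomputable def holeExponent {Ω : Type*} [MeasurableSpace Ω] (P : Measure Ω)
    (ξ : ℕ → Ω → ℂ) (K : Set ℂ) (r : ℝ) : ℝ :=
  -Real.log (P.real (holeEvent ξ K r))

/-- The closed rectangle `[-L, L] × [-1, 1]`. -/
def rect (L : ℝ) : Set ℂ := {z | |z.re| ≤ L ∧ |z.im| ≤ 1}

lemma rect_bounded (L : ℝ) (z : ℂ) (hz : z ∈ rect L) : ‖z‖ ≤ L + 1 := by
  have := Complex.norm_le_abs_re_add_abs_im z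
  have h1 := hz.1
  have h2 := hz.2
  linarith

lemma rect_isBounded (L : ℝ) : Bornology.IsBounded (rect L) := by
  refine (Metric.isBounded_closedBall (x := (0 : ℂ)) (r := L + 1)).subset ?_
  intro z hz
  simpa using rect_bounded L z hz

lemma rect_isCompact (L : ℝ) : IsCompact (rect L) := by
  apply Metric.isCompact_of_isClosed_isBounded _ (rect_isBounded L)
  exact (isClosed_le (Complex.continuous_re.abs) continuous_const).inter
    (isClosed_le (Complex.continuous_im.abs) continuous_const)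

lemma rect_convex (L : ℝ) : Convex ℝ (rect L) := by
  intro z hz w hw a b ha hb hab
  refine ⟨?_, ?_⟩
  · have e : (a • z + b • w).re = a * z.re + b * w.re := by simp
    rw [e]
    calc |a * z.re + b * w.re| ≤ |a * z.re| + |b * w.re| := abs_add_le _ _
      _ = a * |z.re| + b * |w.re| := by rw [abs_mul, abs_mul, abs_of_nonneg ha, abs_of_nonneg hb]
      _ ≤ a * L + b * L := add_le_add (mul_le_mul_of_nonneg_left hz.1 ha)
          (mul_le_mul_of_nonneg_left hw.1 hb)
      _ = L := by rw [← add_mul, hab, one_mul]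
  · have e : (a • z + b • w).im = a * z.im + b * w.im := by simp
    rw [e]
    calc |a * z.im + b * w.im| ≤ |a * z.im| + |b * w.im| := abs_add_le _ _
      _ = a * |z.im| + b * |w.im| := by rw [abs_mul, abs_mul, abs_of_nonneg ha, abs_of_nonneg hb]
      _ ≤ a * 1 + b * 1 := add_le_add (mul_le_mul_of_nonneg_left hz.2 ha)
          (mul_le_mul_of_nonneg_left hw.2 hb)
      _ = 1 := by rw [← add_mul, hab, one_mul]

lemma rect_isConnected (L : ℝ) (hL : 1 ≤ L) : IsConnected (rect L) := by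
  refine ⟨⟨0, ?_⟩, (rect_convex L).isPreconnected⟩
  simp [rect]
  linarith

lemma rect_interior (L : ℝ) (hL : 1 ≤ L) : (interior (rect L)).Nonempty := by
  refine ⟨0, mem_interior.2 ⟨Metric.ball 0 1, ?_, Metric.isOpen_ball, by simp⟩⟩
  intro z hz
  have h1 : ‖z‖ < 1 := by simpa using hz
  exact ⟨(Complex.abs_re_le_norm z).trans (by linarith),
    (Complex.abs_im_le_norm z).trans (by linarith)⟩

/-- The lower bound for the hole probability of elongated rectangles. -/
lemma hole_lower {Ω : Type*} [MeasurableSpace Ω] (P : Measure Ω) [IsProbabilityMeasure P]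
    (ξ : ℕ → Ω → ℂ) (hξ : IsGaussianSeq P ξ) (L r : ℝ) (hL : 1 ≤ L) (hr : 23 * L ≤ r) :
    rexp (-(600 * L ^ 2 * r ^ 4)) ≤ P.real (holeEvent ξ (rect L) r) := by
  have hr1 : 1 ≤ r := by linarith
  have hr2 : 1 ≤ r ^ 2 := one_le_pow₀ hr1
  have hL2 : 1 ≤ L ^ 2 := one_le_pow₀ hL
  have hLr : 1 ≤ L ^ 2 * r ^ 2 := one_le_mul_of_one_le_of_one_le hL2 hr2
  set N := ⌈64 * (L ^ 2 * r ^ 2)⌉₊ with hN
  have hNl : 64 * (L ^ 2 * r ^ 2) ≤ N := Nat.le_ceil _
  have hNu : (N : ℝ) ≤ 65 * (L ^ 2 * r ^ 2) := by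
    have := Nat.ceil_lt_add_one (by positivity : 0 ≤ 64 * (L ^ 2 * r ^ 2))
    linarith
  have hN4 : 4 ≤ N := by
    have : (4 : ℝ) ≤ N := by linarith
    exact_mod_cast this
  have hε0 : 0 < rexp (-2 * r ^ 2) := Real.exp_pos _
  have hε1 : rexp (-2 * r ^ 2) ≤ 1 := Real.exp_le_one_iff.2 (by linarith)
  have hbig : 260 * (L ^ 2 * r ^ 2) ≤ rexp (r ^ 2) := by
    have h1 := Real.quadratic_le_exp_of_nonneg (x := r ^ 2) (by positivity)
    have h2 : 529 * L ^ 2 ≤ r ^ 2 := by
      have := pow_le_pow_left₀ (by linarith) hr 2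
      linarith
    nlinarith
  have hprob := prob_lower P ξ hξ hc hc_norm_le N hN4 (rexp (-2 * r ^ 2)) hε0.le hε1
  have hsub : {ω | (∀ n < N, ‖ξ n ω - hc n‖ ≤ rexp (-2 * r ^ 2)) ∧
      ∀ n, N ≤ n → ‖ξ n ω - hc n‖ ≤ 2 ^ n} ⊆ holeEvent ξ (rect L) r := by
    rintro ω ⟨h1, h2⟩ z hz
    refine no_zero (fun n => ξ n ω) N (rexp (-2 * r ^ 2)) r (2 * L * r) hε0.le (by positivity)
      h1 h2 ?_ ?_ _ ?_ ?_
    · rw [mul_assoc, ← Real.exp_add]
      have e1 : -2 * r ^ 2 + r ^ 2 = -(r ^ 2) := by ring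
      rw [e1, Real.exp_neg, ← div_eq_mul_inv, div_le_iff₀ (Real.exp_pos _)]
      linarith
    · have h3 : ((1 / 2 : ℝ)) ^ N ≤ rexp (-(44 * (L ^ 2 * r ^ 2))) := by
        have h4 : (1 / 2 : ℝ) = rexp (-Real.log 2) := by
          rw [Real.exp_neg, Real.exp_log (by norm_num)]; norm_num
        rw [h4, ← Real.exp_nat_mul]
        apply Real.exp_le_exp.2
        have := Real.log_two_gt_d9
        nlinarith
      have h5 : rexp (8 * (2 * L * r) ^ 2) * (2 * (1 / 2) ^ N) * rexp (r ^ 2 / 2) ≤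
          rexp (8 * (2 * L * r) ^ 2) * (2 * rexp (-(44 * (L ^ 2 * r ^ 2)))) * rexp (r ^ 2 / 2) := by
        gcongr
      refine h5.trans ?_
      have h6 : rexp (8 * (2 * L * r) ^ 2) * (2 * rexp (-(44 * (L ^ 2 * r ^ 2)))) *
          rexp (r ^ 2 / 2) = 2 * rexp (8 * (2 * L * r) ^ 2 + -(44 * (L ^ 2 * r ^ 2)) + r ^ 2 / 2) := by
        rw [Real.exp_add, Real.exp_add]; ring
      rw [h6]
      have h7 : 8 * (2 * L * r) ^ 2 + -(44 * (L ^ 2 * r ^ 2)) + r ^ 2 / 2 ≤ -11 := by
        have h8 : r ^ 2 ≤ L ^ 2 * r ^ 2 := le_mul_of_one_le_left (by positivity) hL2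
        have h9 : 8 * (2 * L * r) ^ 2 = 32 * (L ^ 2 * r ^ 2) := by ring
        rw [h9]
        linarith
      have h8 := Real.exp_le_exp.2 h7
      have h9 : rexp (-11) ≤ 1 / 8 := by
        rw [Real.exp_neg, inv_eq_one_div]
        apply one_div_le_one_div_of_le (by norm_num)
        have := Real.add_one_le_exp (11 : ℝ)
        linarith
      linarith
    · have e : ((r : ℂ) * z).im = r * z.im := by simp
      rw [e, abs_mul, abs_of_pos (by linarith)]
      calc r * |z.im| ≤ r * 1 := mul_le_mul_of_nonneg_left hz.2 (by linarith)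
        _ = r := mul_one r
    · rw [norm_mul, Complex.norm_real, Real.norm_of_nonneg (by linarith)]
      have h3 := rect_bounded L z hz
      calc r * ‖z‖ ≤ r * (2 * L) := mul_le_mul_of_nonneg_left (by linarith) (by linarith)
        _ = 2 * L * r := by ring
  refine le_trans ?_ (hprob.trans (measureReal_mono hsub (measure_ne_top _ _)))
  have e1 : (rexp (-2 * r ^ 2) ^ 2 * rexp (-4)) ^ N = rexp (-((4 * r ^ 2 + 4) * N)) := by
    rw [← Real.exp_nat_mul, ← Real.exp_add, ← Real.exp_nat_mul]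
    congr 1
    push_cast
    ring
  rw [e1]
  have h3 : rexp (-1) ≤ 1 / 2 := by
    rw [Real.exp_neg, inv_eq_one_div]
    apply one_div_le_one_div_of_le (by norm_num)
    have := Real.add_one_le_exp (1 : ℝ)
    linarith
  have h4 : rexp (-(600 * L ^ 2 * r ^ 4)) ≤ rexp (-((4 * r ^ 2 + 4) * N) + -1) := by
    apply Real.exp_le_exp.2
    have h5 : (4 * r ^ 2 + 4) * N ≤ (8 * r ^ 2) * (65 * (L ^ 2 * r ^ 2)) :=
      mul_le_mul (by linarith) hNu (by positivity) (by positivity)
    have h6 : (8 * r ^ 2) * (65 * (L ^ 2 * r ^ 2)) = 520 * (L ^ 2 * r ^ 4) := by ring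
    have h7 : 1 ≤ L ^ 2 * r ^ 4 := one_le_mul_of_one_le_of_one_le hL2 (one_le_pow₀ hr1)
    linarith
  rw [Real.exp_add] at h4
  have h5 : 0 < rexp (-((4 * r ^ 2 + 4) * N)) := Real.exp_pos _
  nlinarith

lemma rect_capacity (L : ℝ) (hL : 1 ≤ L) : 2 * L / rexp 2 ≤ capacity (rect L) := by
  apply capacity_lower _ L (by linarith) (rect_isBounded L)
  intro x hx
  simpa [rect] using hx

lemma exp_two_lt : rexp 2 < 7.4 := by
  have h1 := Real.exp_one_lt_d9
  have h2 : rexp 2 = rexp 1 * rexp 1 := by rw [← Real.exp_add]; norm_num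
  have h3 := Real.exp_pos 1
  rw [h2]
  nlinarith

lemma cap_lower (L : ℝ) (hL : 1 ≤ L) : L / 4 ≤ capacity (rect L) := by
  refine le_trans ?_ (rect_capacity L hL)
  have h1 := exp_two_lt
  rw [div_le_div_iff₀ (by norm_num) (Real.exp_pos 2)]
  nlinarith

lemma exists_gaussianSeq : ∃ (Ω : Type) (_ : MeasurableSpace Ω) (P : Measure Ω)
    (ξ : ℕ → Ω → ℂ), IsProbabilityMeasure P ∧ IsGaussianSeq P ξ := by
  have hprob : IsProbabilityMeasure stdComplexGaussian := by
    have hint0 : ∫ v : ℂ, rexp (-(1 : ℝ) * ‖v‖ ^ 2) = π := by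
      rw [GaussianFourier.integral_rexp_neg_mul_sq_norm (by norm_num)]
      rw [Complex.finrank_real_complex]
      norm_num
    have hintg : Integrable (fun v : ℂ => rexp (-(1 : ℝ) * ‖v‖ ^ 2)) := by
      by_contra hcon
      rw [integral_undef hcon] at hint0
      have := Real.pi_pos
      linarith
    constructor
    unfold stdComplexGaussian
    rw [withDensity_apply _ MeasurableSet.univ, Measure.restrict_univ]
    have e : ∀ w : ℂ, ENNReal.ofReal (π⁻¹ * rexp (-‖w‖ ^ 2)) =
        ENNReal.ofReal (π⁻¹ * rexp (-(1 : ℝ) * ‖w‖ ^ 2)) := by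
      intro w; ring_nf
    simp_rw [e]
    rw [← ofReal_integral_eq_lintegral_ofReal (hintg.const_mul _)
      (Eventually.of_forall fun w => by positivity)]
    rw [integral_const_mul, hint0, inv_mul_cancel₀ Real.pi_pos.ne']
    simp
  refine ⟨ℕ → ℂ, inferInstance, Measure.infinitePi (fun _ => stdComplexGaussian),
    fun n ω => ω n, inferInstance, ?_, ?_, ?_⟩
  · intro n; exact measurable_pi_apply n
  · exact iIndepFun_infinitePi (P := fun _ => stdComplexGaussian) (X := fun _ x => x)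
      (fun _ => measurable_id)
  · intro n
    exact (measurePreserving_eval_infinitePi (fun _ => stdComplexGaussian) n).map_eq

lemma holeExponent_nonneg {Ω : Type*} [MeasurableSpace Ω] (P : Measure Ω)
    [IsProbabilityMeasure P] (ξ : ℕ → Ω → ℂ) (K : Set ℂ) (r : ℝ) :
    0 ≤ holeExponent P ξ K r := by
  unfold holeExponent
  have := Real.log_nonpos (measureReal_nonneg (μ := P) (s := holeEvent ξ K r)) measureReal_le_one
  linarith

lemma holeExponent_le {Ω : Type*} [MeasurableSpace Ω] (P : Measure Ω)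
    [IsProbabilityMeasure P] (ξ : ℕ → Ω → ℂ) (hξ : IsGaussianSeq P ξ) (L r : ℝ) (hL : 1 ≤ L)
    (hr : 23 * L ≤ r) :
    0 < P.real (holeEvent ξ (rect L) r) ∧
      holeExponent P ξ (rect L) r ≤ 600 * L ^ 2 * r ^ 4 := by
  have h1 := hole_lower P ξ hξ L r hL hr
  have h2 := Real.exp_pos (-(600 * L ^ 2 * r ^ 4))
  refine ⟨by linarith, ?_⟩
  have h3 := Real.log_le_log h2 h1
  rw [Real.log_exp] at h3
  unfold holeExponent
  linarith

/-- The hole probability of the Gaussian entire function in `r K` is not given by the logarithmic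
capacity of `K`: the conjectured formula fails by an arbitrarily large factor for long
rectangles. -/
theorem result.{u} :
    (∃ (Ω : Type) (_ : MeasurableSpace Ω) (P : Measure Ω) (ξ : ℕ → Ω → ℂ),
      IsProbabilityMeasure P ∧ IsGaussianSeq P ξ) ∧
    (∀ L : ℝ, 1 ≤ L → 2 * L / rexp 2 ≤ capacity (rect L) ∧
      ∀ (Ω : Type u) [MeasurableSpace Ω] (P : Measure Ω) [IsProbabilityMeasure P]
        (ξ : ℕ → Ω → ℂ), IsGaussianSeq P ξ → ∀ r : ℝ, 23 * L ≤ r →
          rexp (-(600 * L ^ 2 * r ^ 4)) ≤ P.real (holeEvent ξ (rect L) r)) ∧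
    ∀ M : ℝ, ∃ K : Set ℂ, IsCompact K ∧ IsConnected K ∧ (interior K).Nonempty ∧
      0 < capacity K ∧
      ∀ (Ω : Type u) [MeasurableSpace Ω] (P : Measure Ω) [IsProbabilityMeasure P]
        (ξ : ℕ → Ω → ℂ), IsGaussianSeq P ξ →
        (∀ᶠ r in atTop, 0 < P.real (holeEvent ξ K r) ∧
          M * holeExponent P ξ K r ≤ rexp 2 / 4 * capacity K ^ 4 * r ^ 4 ∧
          M * holeExponent P ξ K r ≤ S (capacity K * r)) ∧
        ¬ Tendsto (fun r => holeExponent P ξ K r / r ^ 4) atTop
            (𝓝 (rexp 2 / 4 * capacity K ^ 4)) ∧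
        ¬ Tendsto (fun r => holeExponent P ξ K r / S (capacity K * r)) atTop (𝓝 1) := by
  refine ⟨exists_gaussianSeq, ?_, ?_⟩
  · intro L hL
    refine ⟨rect_capacity L hL, ?_⟩
    intro Ω _ P _ ξ hξ r hr
    exact hole_lower P ξ hξ L r hL hr
  · intro M
    set M' := max M 2 with hM'
    have hM2 : 2 ≤ M' := le_max_right _ _
    have hMM : M ≤ M' := le_max_left _ _
    set L := 2000 * (M' + 1) with hLdef
    have hL : 1 ≤ L := by linarith
    have hc := cap_lower L hL
    have hcpos : 0 < capacity (rect L) := by linarith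
    have hL2 : 3840000 * M' ≤ L ^ 2 := by
      have : L ^ 2 = 4000000 * (M' + 1) ^ 2 := by rw [hLdef]; ring
      rw [this]; nlinarith
    have hL4 : (L / 4) ^ 4 ≤ capacity (rect L) ^ 4 := pow_le_pow_left₀ (by linarith) hc 4
    refine ⟨rect L, rect_isCompact L, rect_isConnected L hL, rect_interior L hL, hcpos, ?_⟩
    intro Ω _ P _ ξ hξ
    have hkey : ∀ r : ℝ, 23 * L ≤ r → 0 < P.real (holeEvent ξ (rect L) r) ∧
        M' * holeExponent P ξ (rect L) r ≤ rexp 2 / 4 * capacity (rect L) ^ 4 * r ^ 4 ∧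
        M' * holeExponent P ξ (rect L) r ≤ S (capacity (rect L) * r) := by
      intro r hr
      obtain ⟨h1, h2⟩ := holeExponent_le P ξ hξ L r hL hr
      have hr0 : 0 < r := by linarith
      have hr4 : 0 < r ^ 4 := by positivity
      have h3 : M' * holeExponent P ξ (rect L) r ≤ L ^ 4 * r ^ 4 / 6400 := by
        have h4 : M' * holeExponent P ξ (rect L) r ≤ M' * (600 * L ^ 2 * r ^ 4) :=
          mul_le_mul_of_nonneg_left h2 (by linarith)
        refine h4.trans ?_
        have h5 : M' * (600 * L ^ 2 * r ^ 4) = (3840000 * M') * (L ^ 2 * r ^ 4 / 6400) := by ring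
        have h6 : L ^ 4 * r ^ 4 / 6400 = L ^ 2 * (L ^ 2 * r ^ 4 / 6400) := by ring
        rw [h5, h6]
        exact mul_le_mul_of_nonneg_right hL2 (by positivity)
      have h7 : L ^ 4 / 256 ≤ capacity (rect L) ^ 4 := by
        have : (L / 4) ^ 4 = L ^ 4 / 256 := by ring
        linarith
      refine ⟨h1, h3.trans ?_, h3.trans ?_⟩
      · have h8 : (1 : ℝ) ≤ rexp 2 := Real.one_le_exp (by norm_num)
        have h9 : L ^ 4 / 256 * r ^ 4 ≤ capacity (rect L) ^ 4 * r ^ 4 :=
          mul_le_mul_of_nonneg_right h7 hr4.le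
        have h10 : 0 ≤ L ^ 4 * r ^ 4 := by positivity
        have h11 : 1 / 4 * (capacity (rect L) ^ 4 * r ^ 4) ≤
            rexp 2 / 4 * (capacity (rect L) ^ 4 * r ^ 4) :=
          mul_le_mul_of_nonneg_right (by linarith) (by positivity)
        calc L ^ 4 * r ^ 4 / 6400 ≤ 1 / 4 * (L ^ 4 / 256 * r ^ 4) := by
              have e : 1 / 4 * (L ^ 4 / 256 * r ^ 4) = L ^ 4 * r ^ 4 / 1024 := by ring
              rw [e]
              exact div_le_div_of_nonneg_left h10 (by norm_num) (by norm_num)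
          _ ≤ 1 / 4 * (capacity (rect L) ^ 4 * r ^ 4) := by linarith
          _ ≤ _ := h11
          _ = _ := by ring
      · have h8 : 2 ≤ capacity (rect L) * r := by
          have h9 : L / 4 * (23 * L) ≤ capacity (rect L) * r :=
            mul_le_mul hc hr (by linarith) hcpos.le
          nlinarith
        refine le_trans ?_ (S_lower _ h8)
        have e2 : (capacity (rect L) * r) ^ 4 = capacity (rect L) ^ 4 * r ^ 4 := mul_pow _ _ _
        rw [e2]
        have h9 : L ^ 4 / 256 * r ^ 4 ≤ capacity (rect L) ^ 4 * r ^ 4 :=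
          mul_le_mul_of_nonneg_right h7 hr4.le
        have e : L ^ 4 * r ^ 4 / 6400 = L ^ 4 / 256 * r ^ 4 / 25 := by ring
        rw [e]
        linarith
    have hnn := fun r => holeExponent_nonneg P ξ (rect L) r
    refine ⟨?_, ?_, ?_⟩
    · filter_upwards [eventually_ge_atTop (23 * L)] with r hr
      obtain ⟨h1, h2, h3⟩ := hkey r hr
      have h4 : M * holeExponent P ξ (rect L) r ≤ M' * holeExponent P ξ (rect L) r :=
        mul_le_mul_of_nonneg_right hMM (hnn r)
      exact ⟨h1, h4.trans h2, h4.trans h3⟩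
    · intro ht
      have hpos : 0 < rexp 2 / 4 * capacity (rect L) ^ 4 := by positivity
      have h1 : ∀ᶠ r in atTop, holeExponent P ξ (rect L) r / r ^ 4 ≤
          rexp 2 / 4 * capacity (rect L) ^ 4 / 2 := by
        filter_upwards [eventually_ge_atTop (23 * L)] with r hr
        have hr0 : 0 < r := by linarith
        have hr4 : 0 < r ^ 4 := by positivity
        obtain ⟨_, h2, _⟩ := hkey r hr
        rw [div_le_iff₀ hr4]
        have h3 : 2 * holeExponent P ξ (rect L) r ≤ M' * holeExponent P ξ (rect L) r :=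
          mul_le_mul_of_nonneg_right hM2 (hnn r)
        linarith
      have h2 := le_of_tendsto ht h1
      linarith
    · intro ht
      have h1 : ∀ᶠ r in atTop, holeExponent P ξ (rect L) r / S (capacity (rect L) * r) ≤
          1 / 2 := by
        filter_upwards [eventually_ge_atTop (23 * L)] with r hr
        obtain ⟨_, _, h2⟩ := hkey r hr
        have h3 : 2 * holeExponent P ξ (rect L) r ≤ M' * holeExponent P ξ (rect L) r :=
          mul_le_mul_of_nonneg_right hM2 (hnn r)
        have h8 : 2 ≤ capacity (rect L) * r := by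
          have h9 : L / 4 * (23 * L) ≤ capacity (rect L) * r :=
            mul_le_mul hc hr (by linarith) hcpos.le
          nlinarith
        have h4 : 0 < S (capacity (rect L) * r) := by
          refine lt_of_lt_of_le ?_ (S_lower _ h8)
          positivity
        rw [div_le_iff₀ h4]
        linarith
      have h2 := le_of_tendsto ht h1
      norm_num at h2

end Pool.Agent.Results.MP_629fb1_pr.ElongatedHoles
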